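import Pool.Agent.K7.H96.NBT.Fin
import Pool.Agent.K7.H96.CYC.Meas

/-!
# Cyclic families of sites in the Anderson model at any disorder

`Δ_ω = -Δ + ω` on `ℓ²(ℤ^d)`, `ω_j` iid with any law `μ`, in every dimension `d`. Let `J` be a Borel set
with `μ(J) > 0`. Then for almost every `ω` every `u` in `ℓ²(ℤ^d)` which is orthogonal to the
eigenvectors of `Δ_ω` is in the closed span of the vectors `e^{-itΔ_ω} δ_x`, `t` real, `ω_x ∈ J`: the
sites where the potential is in `J` generate the continuous subspace. If moreover the potential has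
only one value outside of `J`, and `d ≥ 1`, these vectors span all of `ℓ²(ℤ^d)`. For instance in the
model of the problem, `P(ω_j = ±1) = 1/2`, almost surely the sites with `ω_x = 1` generate all of
`ℓ²(ℤ^d)`, and so do the sites with `ω_x = -1`: no state, whatever its spectral type is, avoids the
sites with `ω_x = 1` for all times.

Proof. Suppose that the orbit of `φ` vanishes at all the sites with `ω_x ∈ J`. Then it is also an
orbit for the potential `W` with `W_x = ω_x` if `ω_x ∉ J`, and `W_x` resampled according to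
`μ(· | Jᶜ)` if `ω_x ∈ J`. The set of the sites with `ω_x ∈ J` is a random set which is independent of
`W`. By stationarity the time averaged positions of the states of the continuous subspace of `Δ_W`
spread out, so that such a state spends a fraction `μ(J) > 0` of its time in that set. Hence `φ = 0`
if `φ` is in the continuous subspace. If the potential has only one value outside of `J`, then `W` is
constant and all the states are in the continuous subspace of `Δ_W`.
-/

set_option autoImplicit false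

open MeasureTheory Filter Topology
open scoped BigOperators ENNReal NNReal InnerProductSpace

namespace Pool.Agent.Results.MP_d0f69c_mp.CyclicSites

/-- `ℓ²(ℤ^d)` -/
abbrev L2 (d : ℕ) : Type := lp (fun _ : Fin d → ℤ => ℂ) 2

/-- the operator of the problem, `(Δ_ω u)(j) = -∑_{|n|=1} (u(j+n) - u(j)) + ω_j u(j)` (the unit
vectors `n` are `± e_i`) -/
noncomputable def H {d : ℕ} (ω : (Fin d → ℤ) → ℝ) (u : (Fin d → ℤ) → ℂ) (j : Fin d → ℤ) : ℂ :=
  -(∑ i : Fin d, ((u (j + Pi.single i 1) - u j) + (u (j - Pi.single i 1) - u j))) + (ω j : ℂ) * u j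

/-- `U t = e^{-itΔ_ω}`: norm preserving maps of `ℓ²(ℤ^d)` with `U 0 = 1` and
`i ∂_t (U_t u) = Δ_ω U_t u` at every site -/
structure IsPropagator {d : ℕ} (ω : (Fin d → ℤ) → ℝ) (U : ℝ → L2 d → L2 d) : Prop where
  zero : ∀ u, U 0 u = u
  norm : ∀ t u, ‖U t u‖ = ‖u‖
  schrodinger : ∀ u t j, HasDerivAt (fun s => (U s u) j)
    (-Complex.I * H ω (fun k => (U t u) k) j) t

/-- `Δ_ω u = E u` for some `E`, that is, `e^{-itΔ_ω} u = e^{-itE} u` -/
def IsEigen {d : ℕ} (U : ℝ → L2 d → L2 d) (u : L2 d) : Prop :=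
  ∃ E : ℝ, ∀ t : ℝ, U t u = Complex.exp (-(Complex.I * t * E)) • u

/-- the closed span of the vectors `e^{-itΔ_ω} δ_x`, `x ∈ A`, `t` real -/
noncomputable def cyclicSpan {d : ℕ} (U : ℝ → L2 d → L2 d) (A : Set (Fin d → ℤ)) : Set (L2 d) :=
  closure (Submodule.span ℂ
    {y : L2 d | ∃ x ∈ A, ∃ t : ℝ, y = U t (lp.single 2 x (1 : ℂ))} : Set (L2 d))

/-- the law of iid variables with law `μ` on `ℤ^d` -/
noncomputable def iid (d : ℕ) (μ : Measure ℝ) : Measure ((Fin d → ℤ) → ℝ) :=
  Measure.infinitePi fun _ => μ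

open Pool.Agent.H5R2.NB

theorem sol_of_prop {d : ℕ} {ω : (Fin d → ℤ) → ℝ} {U : ℝ → L2 d → L2 d}
    (hU : IsPropagator ω U) (u : L2 d) :
    IsSol (-1) (fun x => 2 * d + 1 * ω x) (fun t => U t u) (fun _ => 0) := by
  refine ⟨fun T => ⟨‖u‖, fun t _ => (hU.norm t u).le⟩, fun t x => ?_⟩
  have h := hU.schrodinger u t x
  have e := FIN.hop_eq ω (fun k => (U t u) k) x
  have e2 : -Complex.I * (hopf (-1) (fun y => (U t u) y) x +
      (((fun x => 2 * d + 1 * ω x) x : ℝ) : ℂ) * (U t u) x) + ((0 : L2 d) : (Fin d → ℤ) → ℂ) x =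
      -Complex.I * H ω (fun k => (U t u) k) x := by
    have e3 : H ω (fun k => (U t u) k) x = -(∑ i : Fin d,
        (((U t u) (x + Pi.single i 1) - (U t u) x) + ((U t u) (x - Pi.single i 1) - (U t u) x))) +
        (ω x : ℂ) * (U t u) x := rfl
    rw [e3, ← e]
    simp
  rw [e2]
  exact h

theorem prop_of_grp {d : ℕ} {ω : (Fin d → ℤ) → ℝ} {W : UG (Pool.Agent.H5R2.NB.L2 (Site d))}
    (hW : IsGrp (-1) (fun x => 2 * d + 1 * ω x) W) : IsPropagator ω (fun t u => W.U t u) := by
  refine ⟨W.zero', W.norm', fun u t x => ?_⟩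
  have h := (hW u).2 t x
  have e := FIN.hop_eq ω (fun k => (W.U t u) k) x
  have e3 : H ω (fun k => (W.U t u) k) x = -(∑ i : Fin d,
        (((W.U t u) (x + Pi.single i 1) - (W.U t u) x) +
          ((W.U t u) (x - Pi.single i 1) - (W.U t u) x))) + (ω x : ℂ) * (W.U t u) x := rfl
  rw [e3, ← e]
  simpa using h

theorem prop_eq {d : ℕ} {ω : (Fin d → ℤ) → ℝ} {W : UG (Pool.Agent.H5R2.NB.L2 (Site d))}
    (hW : IsGrp (-1) (fun x => 2 * d + 1 * ω x) W) {U : ℝ → L2 d → L2 d}
    (hU : IsPropagator ω U) (t : ℝ) (u : L2 d) : U t u = W.U t u := by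
  have h := Pool.Agent.H5R2.NB.ALL.a_UN d (-1) _ W hW (fun t => U t u) (fun _ => 0)
    continuous_const (sol_of_prop hU u) t
  simpa [hU.zero u] using h

/-- For every dimension `d`, every law `μ` and every Borel set `J` with `μ(J) > 0`: the unitary group
`e^{-itΔ_ω}` exists and is unique for every `ω`, and for almost every `ω` (iid with law `μ`): (a) every
`u` in `ℓ²(ℤ^d)` which is orthogonal to the eigenvectors of `Δ_ω` is in the closed span of the vectors
`e^{-itΔ_ω} δ_x` with `ω_x ∈ J`; (b) if `d ≥ 1` and if `μ(J ∪ {κ}) = 1` for some `κ`, every `u` in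
`ℓ²(ℤ^d)` is in this span. -/
theorem result (d : ℕ) (μ : Measure ℝ) [IsProbabilityMeasure μ] (J : Set ℝ)
    (hJ : MeasurableSet J) (hpos : μ J ≠ 0) :
    (∀ ω : (Fin d → ℤ) → ℝ, ∃! U : ℝ → L2 d → L2 d, IsPropagator ω U) ∧
    ∀ U : ((Fin d → ℤ) → ℝ) → ℝ → L2 d → L2 d, (∀ ω, IsPropagator ω (U ω)) →
      ∀ᵐ ω ∂(iid d μ),
        (∀ u : L2 d, (∀ ψ : L2 d, IsEigen (U ω) ψ → ⟪ψ, u⟫_ℂ = 0) →
          u ∈ cyclicSpan (U ω) {x | ω x ∈ J}) ∧
        (1 ≤ d → (∃ κ : ℝ, μ (J ∪ {κ}) = 1) → ∀ u : L2 d, u ∈ cyclicSpan (U ω) {x | ω x ∈ J}) := by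
  refine ⟨fun ω => ?_, fun U hU => ?_⟩
  · obtain ⟨W, hW⟩ := Pool.Agent.H5R2.NB.ALL.a_EX d (-1) (fun x => 2 * d + 1 * ω x)
    refine ⟨fun t u => W.U t u, prop_of_grp hW, fun U hU => ?_⟩
    funext t u
    exact prop_eq hW hU t u
  · choose ev hev using fun V : Site d → ℝ => Pool.Agent.H5R2.NB.ALL.a_EX d (-1) V
    set g : ℝ → ℝ := fun r => 2 * (d : ℝ) + 1 * r with hgdef
    have hg : Measurable g := by fun_prop
    have hginj : Function.Injective g := by
      intro a b hab
      simp only [hgdef] at hab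
      linarith
    have hge : MeasurableEmbedding g := (Measurable.measurableEmbedding hg hginj)
    have hpm : IsProbabilityMeasure (μ.map g) := Measure.isProbabilityMeasure_map hg.aemeasurable
    have hmap : (iid d μ).map (fun (ω : Site d → ℝ) (x : Site d) => 2 * (d : ℝ) + 1 * ω x) =
        PP d (μ.map g) := by
      unfold PP iid
      exact Measure.infinitePi_map_pi (μ := fun _ : Site d => μ) (fun _ => hg)
    have hgm : Measurable (fun (ω : Site d → ℝ) (x : Site d) => 2 * (d : ℝ) + 1 * ω x) :=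
      measurable_pi_iff.2 fun x => hg.comp (measurable_pi_apply x)
    have hUe : ∀ ω t u, U ω t u = (ev fun x => 2 * (d : ℝ) + 1 * ω x).U t u := by
      intro ω t u
      exact prop_eq (hev _) (hU ω) t u
    have hJm : MeasurableSet (g '' J) := hge.measurableSet_image.2 hJ
    have hpre : g ⁻¹' (g '' J) = J := Set.preimage_image_eq J hginj
    have hJp : (μ.map g) (g '' J) ≠ 0 := by
      rwa [Measure.map_apply hg hJm, hpre]
    have hmem : ∀ (ω : Site d → ℝ) (x : Site d), (2 * (d : ℝ) + 1 * ω x ∈ g '' J) ↔ ω x ∈ J := by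
      intro ω x
      have : (2 * (d : ℝ) + 1 * ω x) = g (ω x) := rfl
      rw [this, hginj.mem_set_image]
    have hspan : ∀ ω : Site d → ℝ, cyclicSpan (U ω) {x | ω x ∈ J} =
        closure (Submodule.span ℂ {y : L2 d | ∃ x ∈ {x : Site d |
          (fun x => 2 * (d : ℝ) + 1 * ω x) x ∈ g '' J}, ∃ t : ℝ,
            y = (ev fun x => 2 * (d : ℝ) + 1 * ω x).U t (dl x)} : Set (L2 d)) := by
      intro ω
      unfold cyclicSpan
      congr 2
      congr 1
      ext y
      simp only [Set.mem_ofPred_eq, hmem, hUe]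
      rfl
    have hA := Pool.Agent.K7.H96.CYC.res_case hev (μ.map g) (g '' J) hJm hJp
    rw [← hmap] at hA
    have hA2 := ae_of_ae_map hgm.aemeasurable hA
    have hB2 : ∀ᵐ ω ∂(iid d μ), (1 ≤ d → (∃ κ : ℝ, μ (J ∪ {κ}) = 1) →
        ∀ u : L2 d, u ∈ cyclicSpan (U ω) {x | ω x ∈ J}) := by
      by_cases hd : 1 ≤ d
      · by_cases hκ : ∃ κ : ℝ, μ (J ∪ {κ}) = 1
        · obtain ⟨κ, hκ⟩ := hκ
          have hae : ∀ᵐ r ∂μ, r ∈ J ∨ r = κ := by
            have h1 : ∀ᵐ r ∂μ, r ∈ J ∪ {κ} :=
              (mem_ae_iff_prob_eq_one (hJ.union (measurableSet_singleton κ))).2 hκ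
            filter_upwards [h1] with r hr
            exact hr
          have hae2 : ∀ᵐ r ∂(μ.map g), r ∈ g '' J ∨ r = g κ := by
            refine (ae_map_iff hg.aemeasurable ?_).2 ?_
            · exact (hJm.union (measurableSet_singleton (g κ)))
            · filter_upwards [hae] with r hr
              rcases hr with hr | hr
              · exact Or.inl ⟨r, hr, rfl⟩
              · exact Or.inr (by rw [hr])
          have hB := Pool.Agent.K7.H96.CYC.const_case (by norm_num : (-1 : ℝ) ≠ 0) hev hd (μ.map g)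
            (g κ) (g '' J) hJm hJp hae2
          rw [← hmap] at hB
          filter_upwards [ae_of_ae_map hgm.aemeasurable hB] with ω hω _ _ u
          rw [hspan]
          exact hω u
        · exact ae_of_all _ fun ω _ h => absurd h hκ
      · exact ae_of_all _ fun ω h => absurd h hd
    filter_upwards [hA2, hB2] with ω hω hω2
    refine ⟨fun u hu => ?_, hω2⟩
    rw [hspan]
    refine hω u fun ψ hψ => hu ψ ?_
    obtain ⟨E, hE⟩ := hψ
    exact ⟨E, fun t => by rw [hUe]; exact hE t⟩

end Pool.Agent.Results.MP_d0f69c_mp.CyclicSites
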