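import Pool.Agent.K7.H96.HDG.Fin4
import Pool.Agent.TH980.IM.Lat

/-!
# High disorder, arbitrary laws

`-Δ + λ ω` on `ℓ²(ℤ^d)`, `d ≥ 2`, `ω_j` iid with any law `μ` of bounded support (singular laws and
laws with atoms included). As `λ → ∞` the absolutely continuous spectrum is contained, up to a set
of energies of measure tending to zero, in the bands `[λ v, λ v + 4 d]` of the atoms `v` of `μ` whose
mass is at least `p_c`, the critical probability of site percolation on `ℤ^d`. So its measure tends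
to zero if all atoms of `μ` have mass less than `p_c`.

Proof. At energy `E` the sites where `|2 d + λ ω_j - E| ≤ K` are resonant. If `E` is not near `λ v` for
a percolating atom `v`, the resonant sites form a subcritical percolation, so that large clusters of
them are exponentially rare (Duminil-Copin and Tassion), and for most energies the clusters are
not too resonant. If `E` is near such a `λ v` but outside of the band, there are few resonant sites
for small `K > 2 d`. This starts a multiscale analysis for most energies.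
-/

set_option autoImplicit false

open MeasureTheory Filter

namespace Pool.Agent.Results.MP_d0f69c_mp.HighDisorder

/-- The Hilbert space `ℓ²(ℤ^d)`. -/
def L2 (d : ℕ) : Type := lp (fun _ : Fin d → ℤ => ℂ) 2

/-- The `ℓ²` norm. -/
noncomputable instance instNorm (d : ℕ) : NormedAddCommGroup (L2 d) :=
  @lp.normedAddCommGroup (Fin d → ℤ) (fun _ => ℂ) 2 _ _

/-- The `ℓ²` inner product. -/
noncomputable instance instInner (d : ℕ) : InnerProductSpace ℂ (L2 d) :=
  @lp.instInnerProductSpace (Fin d → ℤ) ℂ _ (fun _ => ℂ) _ _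

/-- The underlying function of a vector of `ℓ²(ℤ^d)`. -/
def coord {d : ℕ} (u : L2 d) : (Fin d → ℤ) → ℂ := (show lp (fun _ : Fin d → ℤ => ℂ) 2 from u)

/-- Bounded linear operators on a complex inner product space. -/
abbrev Op (E : Type) [NormedAddCommGroup E] [InnerProductSpace ℂ E] : Type := E →L[ℂ] E

/-- `-(discrete Laplacian) + lam ω` on functions: the operator of the problem with coupling `lam` -/
noncomputable def act {d : ℕ} (lam : ℝ) (ω : (Fin d → ℤ) → ℝ) (u : (Fin d → ℤ) → ℂ)
    (j : Fin d → ℤ) : ℂ :=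
  -(∑ i : Fin d, ((u (j + Pi.single i 1) - u j) + (u (j - Pi.single i 1) - u j)))
    + ((lam * ω j : ℝ) : ℂ) * u j

/-- The bounded operator `H` on `ℓ²(ℤ^d)` acts as `-(discrete Laplacian) + lam ω`. -/
def IsAnderson {d : ℕ} (lam : ℝ) (ω : (Fin d → ℤ) → ℝ) (H : Op (L2 d)) : Prop :=
  ∀ u : L2 d, coord (H u) = act lam ω (coord u)

/-- `(H - z)⁻¹` -/
noncomputable def res {E : Type} [NormedAddCommGroup E] [InnerProductSpace ℂ E] (H : Op E) (z : ℂ) :
    Op E :=
  Ring.inverse (H - z • (1 : Op E))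

/-- `m` is the spectral measure of `ψ`: a finite measure with Borel transform
`⟨ψ, (H - z)⁻¹ ψ⟩` off the real line. -/
def IsSpectralMeasure {E : Type} [NormedAddCommGroup E] [InnerProductSpace ℂ E]
    (H : Op E) (ψ : E) (m : Measure ℝ) : Prop :=
  IsFiniteMeasure m ∧ ∀ z : ℂ, z.im ≠ 0 →
    ∫ x, ((x : ℂ) - z)⁻¹ ∂m = inner ℂ ψ (res H z ψ)

/-- the law of iid variables with law `μ` on `ℤ^d` -/
noncomputable def iid (d : ℕ) (μ : Measure ℝ) : Measure ((Fin d → ℤ) → ℝ) :=
  Measure.infinitePi fun _ => μ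

/-- the law of site percolation on `ℤ^d`: sites are open (`true`) with probability `p` -/
noncomputable def perc (d : ℕ) (p : ℝ) : Measure ((Fin d → ℤ) → Bool) :=
  Measure.infinitePi fun _ =>
    ENNReal.ofReal p • Measure.dirac true + ENNReal.ofReal (1 - p) • Measure.dirac false

/-- nearest neighbours -/
def Nbr {d : ℕ} (x y : Fin d → ℤ) : Prop :=
  ∃ i : Fin d, y = x + Pi.single i 1 ∨ y = x - Pi.single i 1

/-- the open cluster of `x`: the sites which are joined to `x` by a path of open sites -/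
def cluster {d : ℕ} (σ : (Fin d → ℤ) → Bool) (x : Fin d → ℤ) : Set (Fin d → ℤ) :=
  {y | σ x = true ∧ Relation.ReflTransGen (fun u v => Nbr u v ∧ σ v = true) x y}

/-- the critical probability of site percolation on `ℤ^d`: the supremum of the `p` for which the
open cluster of the origin is almost surely finite -/
noncomputable def pc (d : ℕ) : ℝ :=
  sSup {p : ℝ | 0 ≤ p ∧ p ≤ 1 ∧ perc d p {σ | (cluster σ 0).Infinite} = 0}

/-- the energies outside of the bands `[lam v, lam v + 4 d]`, `v` an atom of `μ` of mass at least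
`p_c` -/
def offBands (d : ℕ) (μ : Measure ℝ) (lam : ℝ) : Set ℝ :=
  {E | ∀ v : ℝ, pc d ≤ μ.real {v} → E ∉ Set.Icc (lam * v) (lam * v + 4 * d)}

theorem exists_spm (d : ℕ) (K : ℝ) (V : (Fin d → ℤ) → ℝ) (ψ : lp (fun _ : Fin d → ℤ => ℂ) 2) :
    ∃ m : Measure ℝ, IsFiniteMeasure m ∧ ∀ z : ℂ, z.im ≠ 0 →
      ∫ x, ((x : ℂ) - z)⁻¹ ∂m =
        inner ℂ ψ (Pool.Agent.H12R2.And.Rz (Pool.Agent.TH980.IM.HV K V) z ψ) :=
  ⟨Pool.Agent.TH980.IM.spm (Pool.Agent.TH980.IM.HV_sa K V) ψ, inferInstance,
    fun _ hz => Pool.Agent.TH980.IM.BT_spm _ ψ hz⟩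

open Pool.Agent.K7.H96.HDG in
theorem cluster_eq {d : ℕ} (σ : (Fin d → ℤ) → Bool) :
    cluster σ 0 = {y | σ 0 = true ∧ (SG σ Set.univ).Reachable 0 y} := by
  ext y
  unfold cluster
  simp only [Set.mem_ofPred_eq]
  refine and_congr_right fun h0 => ?_
  constructor
  · intro h
    induction h with
    | refl => exact SimpleGraph.Reachable.refl _
    | @tail u v _ huv ih =>
      refine ih.trans (SimpleGraph.Adj.reachable
        ⟨Set.mem_univ _, Set.mem_univ _, ?_, reach_open ih h0, huv.2⟩)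
      rw [mem_nb]
      obtain ⟨i, h1 | h1⟩ := huv.1
      · exact Or.inl ⟨i, h1.symm⟩
      · exact Or.inr ⟨i, h1.symm⟩
  · intro h
    rw [SimpleGraph.reachable_iff_reflTransGen] at h
    induction h with
    | refl => exact Relation.ReflTransGen.refl
    | @tail u v _ huv ih =>
      refine ih.tail ⟨?_, huv.2.2.2.2⟩
      have h1 := huv.2.2.1
      rw [mem_nb] at h1
      rcases h1 with ⟨i, h1⟩ | ⟨i, h1⟩
      · exact ⟨i, Or.inl h1.symm⟩
      · exact ⟨i, Or.inr h1.symm⟩

/-- Let `d ≥ 2`, let `μ` be any law with bounded support and let `ε > 0`. There is `lam₀` such that for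
every `lam ≥ lam₀` there is a (deterministic) Borel set `S` of energies such that
* `S` contains all energies outside of the bands `[lam v, lam v + 4 d]`, `μ({v}) ≥ p_c`, up to a set of
  measure at most `ε`;
* for almost every potential `ω` (iid with law `μ`) the operator `-Δ + lam ω` (which exists and is
  unique) has no absolutely continuous spectrum in `S`: every vector has a spectral measure, and it is
  singular on `S`. -/
theorem result (d : ℕ) (hd : 2 ≤ d) (μ : Measure ℝ) [IsProbabilityMeasure μ]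
    (hb : ∃ R : ℝ, ∀ᵐ v ∂μ, |v| ≤ R) (ε : ℝ) (hε : 0 < ε) :
    ∃ lam₀ : ℝ, ∀ lam : ℝ, lam₀ ≤ lam → ∃ S : Set ℝ, MeasurableSet S ∧
      volume (offBands d μ lam \ S) ≤ ENNReal.ofReal ε ∧
      ∀ᵐ ω ∂(iid d μ), (∃! H : Op (L2 d), IsAnderson lam ω H) ∧
        ∀ H : Op (L2 d), IsAnderson lam ω H → ∀ ψ : L2 d,
          (∃ m : Measure ℝ, IsSpectralMeasure H ψ m) ∧
          ∀ m : Measure ℝ, IsSpectralMeasure H ψ m → (m.restrict S) ⟂ₘ volume := by
  obtain ⟨R, hR⟩ := hb
  have hP : ∀ p ∈ {p : ℝ | 0 ≤ p ∧ p ≤ 1 ∧ perc d p {σ | (cluster σ 0).Infinite} = 0},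
      ∃ q : unitInterval, (q : ℝ) = p ∧ (Pool.Agent.W783.PC.pm fun _ : Fin d → ℤ => q).real
        (Pool.Agent.K7.H96.HDG.Inf d) = 0 := by
    rintro p ⟨h0, h1, h2⟩
    refine ⟨⟨p, h0, h1⟩, rfl, ?_⟩
    have e1 : Pool.Agent.K7.H96.HDG.Inf d = {σ | (cluster σ 0).Infinite} := by
      ext σ
      unfold Pool.Agent.K7.H96.HDG.Inf
      simp only [Set.mem_ofPred_eq]
      rw [cluster_eq]
    rw [measureReal_def, e1, ENNReal.toReal_eq_zero_iff]
    exact Or.inl h2
  obtain ⟨lam₀, hmain⟩ := Pool.Agent.K7.H96.HDG.main5 hd μ hR hP hε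
  refine ⟨lam₀, fun lam hlam => ?_⟩
  obtain ⟨S, hS, hvol, hae⟩ := hmain lam hlam
  refine ⟨S, hS, hvol, ?_⟩
  have hgm : Measurable fun v : ℝ => lam * v := by fun_prop
  have hpm : IsProbabilityMeasure (μ.map fun v : ℝ => lam * v) :=
    Measure.isProbabilityMeasure_map hgm.aemeasurable
  have hmap : (iid d μ).map (fun (ω : (Fin d → ℤ) → ℝ) (x : Fin d → ℤ) => lam * ω x) =
      Pool.Agent.K7.H96.HDG.PP d (μ.map fun v : ℝ => lam * v) := by
    unfold Pool.Agent.K7.H96.HDG.PP iid
    exact Measure.infinitePi_map_pi (μ := fun _ : Fin d → ℤ => μ) (fun _ => hgm)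
  have hgm2 : Measurable (fun (ω : (Fin d → ℤ) → ℝ) (x : Fin d → ℤ) => lam * ω x) :=
    measurable_pi_iff.2 fun x => hgm.comp (measurable_pi_apply x)
  rw [← hmap] at hae
  have hb2 : ∀ᵐ ω ∂(iid d μ), ∀ x : Fin d → ℤ, |ω x| ≤ R := by
    rw [ae_all_iff]
    intro x
    have h1 : MeasurePreserving (fun ω : (Fin d → ℤ) → ℝ => ω x) (iid d μ) μ :=
      measurePreserving_eval_infinitePi (fun _ : Fin d → ℤ => μ) x
    exact h1.quasiMeasurePreserving.ae hR
  filter_upwards [ae_of_ae_map hgm2.aemeasurable hae, hb2] with ω hω hωb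
  have hbd : ∀ x, |lam * ω x| ≤ |lam| * R := fun x => by
    rw [abs_mul]
    exact mul_le_mul_of_nonneg_left (hωb x) (abs_nonneg _)
  set A := Pool.Agent.TH980.IM.HV (|lam| * R) (fun x => lam * ω x) with hA
  have hAA : ∀ (u : L2 d) (j : Fin d → ℤ), coord (A u) j = act lam ω (coord u) j := by
    intro u j
    have h1 := Pool.Agent.TH980.IM.HV_apply (|lam| * R) (fun x => lam * ω x) u j
    rw [Pool.Agent.TH980.IM.cl_eq (hbd j)] at h1
    refine h1.trans ?_
    unfold act
    congr 1
    rw [← Finset.sum_neg_distrib]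
    refine Finset.sum_congr rfl fun i _ => ?_
    unfold coord
    ring
  have hAe : IsAnderson lam ω A := fun u => funext fun j => hAA u j
  have huniq : ∀ H : Op (L2 d), IsAnderson lam ω H → H = A := by
    intro H hH
    apply ContinuousLinearMap.ext
    intro u
    apply lp.ext
    funext j
    exact (congrFun (hH u) j).trans (hAA u j).symm
  refine ⟨⟨A, hAe, huniq⟩, fun H hH ψ => ⟨?_, fun m hm => ?_⟩⟩
  · rw [huniq H hH]
    exact exists_spm d (|lam| * R) (fun x => lam * ω x) ψ
  · refine hω H (fun u j => ?_) ψ m hm.1 hm.2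
    exact congrFun (hH u) j

end Pool.Agent.Results.MP_d0f69c_mp.HighDisorder
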