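import Pool.Agent.K7.H96.NBT.Fin

/-!
# No ballistic transport in the Anderson model at any disorder

`Δ_ω = -Δ + ω` on `ℓ²(ℤ^d)`, `ω_j` iid with the law `μ`, in every dimension `d`.

* If `μ` is not singular, for instance if `μ = (1 - ε) (δ_{-1} + δ_1) / 2 + ε λ` with the uniform law
  `λ` on an interval and an arbitrarily small `ε > 0`, or if `μ` is the uniform law on `[-c, c]` for an
  arbitrarily small `c > 0`, then for almost every `ω` no state moves ballistically: for every `u` in
  `ℓ²(ℤ^d)` the time average of the velocity `e^{isΔ_ω} v e^{-isΔ_ω} u` tends to zero in `ℓ²`, and the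
  second moment of `e^{-itΔ_ω} u` is `o(t²)` if it is finite at time zero.
* If `μ` is any law which is not a point mass, for instance `P(ω_j = ±1) = 1/2`, the same is true for
  every `u` in the closed span of the absolutely continuous subspace and of the eigenvectors. So only
  the singular continuous subspace can carry ballistic motion.

Proof of the first part. Let `N` be a Lebesgue null set which carries the singular part of `μ`, and
`B` the asymptotic velocity (the strong limit of the averages). At the sites `x` with `ω_x ∉ N` a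
rank one argument gives `B δ_x = 0`, so that the orbits of the vectors `B u` vanish at these sites. So
these orbits are also orbits for the potential `W` with `W_x = ω_x` if `ω_x ∈ N`, and `W_x` resampled
according to `μ(· | N)` otherwise. By an argument of Simon `B` vanishes on the eigenvectors, hence the
`B u` are in the continuous subspace, by the compactness of the averages of the rank one projections
along the orbit of `δ_x`. By stationarity (mass transport) the time averaged positions of all states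
in the continuous subspace of `Δ_W` spread out, `∑_x ‖A_x u‖² → 0` along a sequence of times, where
`A_x` is the time average of `e^{isΔ_W} |δ_x⟩⟨δ_x| e^{-isΔ_W}`; and the set of the sites with
`ω_x ∉ N` is a random set which is independent of `W`, so that the states `B u` spend a fraction
`μ(Nᶜ) > 0` of their time there. So `B u = 0`.
-/

set_option autoImplicit false

open MeasureTheory Filter Topology
open scoped BigOperators ENNReal NNReal InnerProductSpace

namespace Pool.Agent.Results.MP_d0f69c_mp.NoBallisticTransport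

/-- `ℓ²(ℤ^d)` -/
abbrev L2 (d : ℕ) : Type := lp (fun _ : Fin d → ℤ => ℂ) 2

/-- the operator of the problem, `(Δ_ω u)(j) = -∑_{|n|=1} (u(j+n) - u(j)) + ω_j u(j)` (the unit
vectors `n` are `± e_i`) -/
noncomputable def H {d : ℕ} (ω : (Fin d → ℤ) → ℝ) (u : (Fin d → ℤ) → ℂ) (j : Fin d → ℤ) : ℂ :=
  -(∑ i : Fin d, ((u (j + Pi.single i 1) - u j) + (u (j - Pi.single i 1) - u j))) + (ω j : ℂ) * u j

/-- `U t = e^{-itΔ_ω}`: norm preserving maps of `ℓ²(ℤ^d)` with `U 0 = 1` and
`i ∂_t (U_t u) = Δ_ω U_t u` at every site -/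
structure IsPropagator {d : ℕ} (ω : (Fin d → ℤ) → ℝ) (U : ℝ → L2 d → L2 d) : Prop where
  zero : ∀ u, U 0 u = u
  norm : ∀ t u, ‖U t u‖ = ‖u‖
  schrodinger : ∀ u t j, HasDerivAt (fun s => (U s u) j)
    (-Complex.I * H ω (fun k => (U t u) k) j) t

/-- `v` is the velocity operator `i[Δ_ω, x_i]`, `(v u)(j) = -i (u(j+e_i) - u(j-e_i))` -/
def IsVelocity {d : ℕ} (i : Fin d) (v : L2 d → L2 d) : Prop :=
  ∀ u j, (v u) j = -Complex.I * (u (j + Pi.single i 1) - u (j - Pi.single i 1))

/-- the spectral measure of `u` (the finite measure `m` with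
`⟨u, e^{-itΔ_ω} u⟩ = ∫ e^{-itE} dm(E)`) is absolutely continuous -/
def IsAC {d : ℕ} (U : ℝ → L2 d → L2 d) (u : L2 d) : Prop :=
  ∃ m : Measure ℝ, IsFiniteMeasure m ∧ m ≪ volume ∧
    ∀ t : ℝ, ⟪u, U t u⟫_ℂ = ∫ E : ℝ, Complex.exp (-(Complex.I * t * E)) ∂m

/-- `Δ_ω u = E u` for some `E`, that is, `e^{-itΔ_ω} u = e^{-itE} u` -/
def IsEigen {d : ℕ} (U : ℝ → L2 d → L2 d) (u : L2 d) : Prop :=
  ∃ E : ℝ, ∀ t : ℝ, U t u = Complex.exp (-(Complex.I * t * E)) • u

/-- the closed span of the absolutely continuous subspace and of the eigenvectors, that is, the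
orthogonal complement of the singular continuous subspace -/
def noSC {d : ℕ} (U : ℝ → L2 d → L2 d) : Set (L2 d) :=
  closure (Submodule.span ℂ {u : L2 d | IsAC U u ∨ IsEigen U u} : Set (L2 d))

/-- the second moment `∑_x |x|² |u(x)|²` of the position in the state `u` -/
noncomputable def secondMoment {d : ℕ} (u : L2 d) : ℝ≥0∞ :=
  ∑' x : Fin d → ℤ, ENNReal.ofReal (∑ i : Fin d, (x i : ℝ) ^ 2) * ‖u x‖ₑ ^ 2

/-- the law of iid variables with law `μ` on `ℤ^d` -/
noncomputable def iid (d : ℕ) (μ : Measure ℝ) : Measure ((Fin d → ℤ) → ℝ) :=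
  Measure.infinitePi fun _ => μ

/-- the time average over `[0,T]` of the velocity at time `s`, `U_{-s} v U_s`, applied to `u` -/
noncomputable def average {d : ℕ} (U : ℝ → L2 d → L2 d) (v : L2 d → L2 d) (T : ℝ)
    (u : L2 d) : L2 d :=
  ((T : ℂ)⁻¹) • ∫ s in (0 : ℝ)..T, U (-s) (v (U s u))

/-- the state `u` does not move ballistically: the time averages of its velocity tend to zero in
`ℓ²` for all directions, and the second moment of the position at time `t` is `o(t²)` if it is finite
at time zero -/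
def NotBallistic {d : ℕ} (U : ℝ → L2 d → L2 d) (u : L2 d) : Prop :=
  (∀ (i : Fin d) (v : L2 d → L2 d), IsVelocity i v →
    Tendsto (fun T : ℝ => average U v T u) atTop (𝓝 0)) ∧
  (secondMoment u ≠ ∞ →
    Tendsto (fun t : ℝ => secondMoment (U t u) / ENNReal.ofReal (t ^ 2)) atTop (𝓝 0))

open Pool.Agent.H5R2.NB

theorem sol_of_prop {d : ℕ} {ω : (Fin d → ℤ) → ℝ} {U : ℝ → L2 d → L2 d}
    (hU : IsPropagator ω U) (u : L2 d) :
    IsSol (-1) (fun x => 2 * d + 1 * ω x) (fun t => U t u) (fun _ => 0) := by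
  refine ⟨fun T => ⟨‖u‖, fun t _ => (hU.norm t u).le⟩, fun t x => ?_⟩
  have h := hU.schrodinger u t x
  have e := FIN.hop_eq ω (fun k => (U t u) k) x
  have e2 : -Complex.I * (hopf (-1) (fun y => (U t u) y) x +
      (((fun x => 2 * d + 1 * ω x) x : ℝ) : ℂ) * (U t u) x) + ((0 : L2 d) : (Fin d → ℤ) → ℂ) x =
      -Complex.I * H ω (fun k => (U t u) k) x := by
    have e3 : H ω (fun k => (U t u) k) x = -(∑ i : Fin d,
        (((U t u) (x + Pi.single i 1) - (U t u) x) + ((U t u) (x - Pi.single i 1) - (U t u) x))) +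
        (ω x : ℂ) * (U t u) x := rfl
    rw [e3, ← e]
    simp
  rw [e2]
  exact h

theorem prop_of_grp {d : ℕ} {ω : (Fin d → ℤ) → ℝ} {W : UG (Pool.Agent.H5R2.NB.L2 (Site d))}
    (hW : IsGrp (-1) (fun x => 2 * d + 1 * ω x) W) : IsPropagator ω (fun t u => W.U t u) := by
  refine ⟨W.zero', W.norm', fun u t x => ?_⟩
  have h := (hW u).2 t x
  have e := FIN.hop_eq ω (fun k => (W.U t u) k) x
  have e3 : H ω (fun k => (W.U t u) k) x = -(∑ i : Fin d,
        (((W.U t u) (x + Pi.single i 1) - (W.U t u) x) +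
          ((W.U t u) (x - Pi.single i 1) - (W.U t u) x))) + (ω x : ℂ) * (W.U t u) x := rfl
  rw [e3, ← e]
  simpa using h

theorem prop_eq {d : ℕ} {ω : (Fin d → ℤ) → ℝ} {W : UG (Pool.Agent.H5R2.NB.L2 (Site d))}
    (hW : IsGrp (-1) (fun x => 2 * d + 1 * ω x) W) {U : ℝ → L2 d → L2 d}
    (hU : IsPropagator ω U) (t : ℝ) (u : L2 d) : U t u = W.U t u := by
  have h := Pool.Agent.H5R2.NB.ALL.a_UN d (-1) _ W hW (fun t => U t u) (fun _ => 0)
    continuous_const (sol_of_prop hU u) t
  simpa [hU.zero u] using h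

theorem second_eq {d : ℕ} (u : L2 d) :
    secondMoment u = ∑ j : Fin d, Pool.Agent.R988.NQ.m2 j u := by
  unfold secondMoment Pool.Agent.R988.NQ.m2
  have e2 : ∀ x : Site d, ENNReal.ofReal (∑ i : Fin d, (x i : ℝ) ^ 2) *
      ‖u x‖ₑ ^ 2 = ∑ j : Fin d, ENNReal.ofReal ((x j : ℝ) ^ 2) * ‖u x‖ₑ ^ 2 := by
    intro x
    rw [ENNReal.ofReal_sum_of_nonneg (fun i _ => sq_nonneg _), Finset.sum_mul]
  simp_rw [e2]
  rw [Summable.tsum_finsetSum (fun i _ => ENNReal.summable)]

theorem tendsto_aux {a : ℝ≥0∞} (ha : a ≠ ∞) {g : ℝ → ℝ≥0∞}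
    (hg : Tendsto (fun t : ℝ => g t / ENNReal.ofReal (t ^ 2)) atTop (𝓝 0)) :
    Tendsto (fun t : ℝ => (2 * a + 2 * g t) / ENNReal.ofReal (t ^ 2)) atTop (𝓝 0) := by
  have h1 : Tendsto (fun t : ℝ => 2 * a / ENNReal.ofReal (t ^ 2)) atTop (𝓝 0) := by
    have hp : Tendsto (fun t : ℝ => ENNReal.ofReal (t ^ 2)) atTop (𝓝 ∞) :=
      ENNReal.tendsto_ofReal_atTop.comp (tendsto_pow_atTop (by norm_num))
    have h2a : 2 * a ≠ ∞ := ENNReal.mul_ne_top (by norm_num) ha
    have := ENNReal.Tendsto.const_div (a := 2 * a) hp (Or.inr h2a)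
    simpa using this
  have h2 := ENNReal.Tendsto.const_mul (a := 2) hg (Or.inr (by norm_num))
  have h3 := h1.add h2
  simp only [mul_zero, add_zero] at h3
  refine h3.congr fun t => ?_
  rw [ENNReal.add_div, mul_div_assoc (2 : ℝ≥0∞) (g t)]

/-- if the averages along the integers tend to zero in all directions, the state does not move
ballistically -/
theorem not_ballistic {d : ℕ} {ω : (Fin d → ℤ) → ℝ}
    {W : UG (Pool.Agent.H5R2.NB.L2 (Site d))} (hW : IsGrp (-1) (fun x => 2 * d + 1 * ω x) W)
    {U : ℝ → L2 d → L2 d} (hU : IsPropagator ω U)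
    {v : Fin d → Pool.Agent.H5R2.NB.L2 (Site d) →L[ℂ] Pool.Agent.H5R2.NB.L2 (Site d)}
    (hv : ∀ i, IsVel (-1) i (v i)) (u : L2 d)
    (h : ∀ i, Tendsto (fun N : ℕ => avP W (v i) N u) atTop (𝓝 0)) : NotBallistic U u := by
  have hUe : ∀ t u, U t u = W.U t u := fun t u => prop_eq hW hU t u
  refine ⟨fun i w hw => ?_, fun hm => ?_⟩
  · have hwe : ∀ f, w f = v i f := by
      intro f
      ext x
      have h1 := hw f x
      have h2 : (v i f) x = Complex.I * (-1 : ℝ) *
          (f (x + Pi.single i 1) - f (x - Pi.single i 1)) := hv i f x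
      rw [h1, h2]
      push_cast
      ring
    have h2 := Pool.Agent.R988.NQ.real_times' W (v i) u 0 (h i)
    refine h2.congr fun T => ?_
    unfold average
    congr 1
    refine intervalIntegral.integral_congr fun s _ => ?_
    show _ = U (-s) (w (U s u))
    rw [hwe, hUe, hUe]
  · have hterm : ∀ j : Fin d, Tendsto (fun t : ℝ =>
        Pool.Agent.R988.NQ.m2 j (U t u) / ENNReal.ofReal (t ^ 2)) atTop (𝓝 0) := by
      intro j
      have hfin : Pool.Agent.R988.NQ.m2 j u ≠ ∞ := by
        rw [second_eq] at hm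
        exact ne_top_of_le_ne_top hm
          (Finset.single_le_sum (f := fun j => Pool.Agent.R988.NQ.m2 j u)
            (fun _ _ => bot_le) (Finset.mem_univ j))
      have hωj := Pool.Agent.R988.NQ.real_times W (v j) u (h j)
      have h1 : Tendsto (fun t : ℝ => ‖∫ s in (0 : ℝ)..t,
          W.U (-s) (v j (W.U s u))‖ₑ ^ 2 / ENNReal.ofReal (t ^ 2)) atTop (𝓝 0) := by
        have h3 := hωj.pow 2
        rw [zero_pow (two_ne_zero)] at h3
        have h2 := (ENNReal.continuous_ofReal.tendsto 0).comp h3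
        rw [ENNReal.ofReal_zero] at h2
        refine h2.congr' ?_
        filter_upwards [eventually_gt_atTop (0 : ℝ)] with t ht
        simp only [Function.comp]
        rw [mul_pow, mul_comm, inv_pow, ← div_eq_mul_inv,
          ENNReal.ofReal_div_of_pos (by positivity), ENNReal.ofReal_pow (norm_nonneg _),
          ofReal_norm]
        rfl
      refine tendsto_of_tendsto_of_tendsto_of_le_of_le tendsto_const_nhds
        (tendsto_aux hfin h1) (fun t => bot_le) fun t => ?_
      refine ENNReal.div_le_div_right ?_ _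
      rw [hUe]
      exact Pool.Agent.R988.NQ.mom_le (-1) _ _ hW j (v j) (hv j) u t
    have hsum := tendsto_finsetSum (Finset.univ : Finset (Fin d)) (fun j _ => hterm j)
    simp only [Finset.sum_const_zero] at hsum
    refine hsum.congr fun t => ?_
    rw [second_eq, ENNReal.div_eq_inv_mul, Finset.mul_sum]
    refine Finset.sum_congr rfl fun j _ => ?_
    rw [ENNReal.div_eq_inv_mul]

/-- For every dimension `d` and every law `μ` the unitary group `e^{-itΔ_ω}` exists and is unique for
every `ω`, the velocity operators exist, and for almost every `ω` (iid with law `μ`): (a) if `μ` is not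
singular with respect to Lebesgue measure, no `u` in `ℓ²(ℤ^d)` moves ballistically; (b) if `μ` is not
a point mass, no `u` in the closed span of the absolutely continuous subspace and of the eigenvectors
of `Δ_ω` moves ballistically. -/
theorem result (d : ℕ) (μ : Measure ℝ) [IsProbabilityMeasure μ] :
    (∀ ω : (Fin d → ℤ) → ℝ, ∃! U : ℝ → L2 d → L2 d, IsPropagator ω U) ∧
    (∀ i : Fin d, ∃! v : L2 d → L2 d, IsVelocity i v) ∧
    ∀ U : ((Fin d → ℤ) → ℝ) → ℝ → L2 d → L2 d, (∀ ω, IsPropagator ω (U ω)) →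
      ∀ᵐ ω ∂(iid d μ),
        (¬ μ ⟂ₘ (volume : Measure ℝ) → ∀ u : L2 d, NotBallistic (U ω) u) ∧
        ((∀ r : ℝ, μ {r} ≠ 1) → ∀ u ∈ noSC (U ω), NotBallistic (U ω) u) := by
  choose v hv using fun i : Fin d => (t_OPS d).2.2 (-1 : ℝ) i
  refine ⟨fun ω => ?_, fun i => ?_, fun U hU => ?_⟩
  · obtain ⟨W, hW⟩ := Pool.Agent.H5R2.NB.ALL.a_EX d (-1) (fun x => 2 * d + 1 * ω x)
    refine ⟨fun t u => W.U t u, prop_of_grp hW, fun U hU => ?_⟩
    funext t u
    exact prop_eq hW hU t u
  · refine ⟨fun u => v i u, fun u x => ?_, fun w hw => ?_⟩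
    · have := hv i u x
      rw [this]
      push_cast
      ring
    · funext f
      ext x
      have h1 := hw f x
      have h2 : (v i f) x = Complex.I * (-1 : ℝ) *
          (f (x + Pi.single i 1) - f (x - Pi.single i 1)) := hv i f x
      rw [h1, h2]
      push_cast
      ring
  · choose ev hev using fun V : Site d → ℝ => Pool.Agent.H5R2.NB.ALL.a_EX d (-1) V
    have hg : Measurable (fun r : ℝ => 2 * (d : ℝ) + 1 * r) := by fun_prop
    have hpm : IsProbabilityMeasure (μ.map fun r : ℝ => 2 * (d : ℝ) + 1 * r) :=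
      Measure.isProbabilityMeasure_map hg.aemeasurable
    have hne : (∀ r : ℝ, μ {r} ≠ 1) → ∀ κ : ℝ, (μ.map fun r : ℝ => 2 * (d : ℝ) + 1 * r) {κ} ≠ 1 := by
      intro hμ κ
      rw [Measure.map_apply hg (measurableSet_singleton κ)]
      have : (fun r : ℝ => 2 * (d : ℝ) + 1 * r) ⁻¹' {κ} = {κ - 2 * d} := by
        ext r
        simp only [Set.mem_preimage, Set.mem_singleton_iff]
        constructor <;> intro h <;> linarith
      rw [this]
      exact hμ _
    have hmap : (iid d μ).map (fun (ω : Site d → ℝ) (x : Site d) => 2 * (d : ℝ) + 1 * ω x) =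
        PP d (μ.map fun r : ℝ => 2 * (d : ℝ) + 1 * r) := by
      unfold PP iid
      exact Measure.infinitePi_map_pi (μ := fun _ : Site d => μ) (fun _ => hg)
    have hgm : Measurable (fun (ω : Site d → ℝ) (x : Site d) => 2 * (d : ℝ) + 1 * ω x) :=
      measurable_pi_iff.2 fun x => hg.comp (measurable_pi_apply x)
    have hUe : ∀ ω t u, U ω t u = (ev fun x => 2 * (d : ℝ) + 1 * ω x).U t u := by
      intro ω t u
      exact prop_eq (hev _) (hU ω) t u
    have hall := (ae_all_iff (ι := Fin d)).2 fun i => Pool.Agent.K7.H96.NBT.velocity hev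
      (μ.map fun r : ℝ => 2 * (d : ℝ) + 1 * r) (hv i)
    rw [← hmap] at hall
    have hall2 := ae_of_ae_map hgm.aemeasurable hall
    filter_upwards [hall2] with ω hω
    choose B hB hBac hBeig hBns using hω
    have hac : ∀ u : L2 d, IsAC (U ω) u →
        u ∈ Pool.Agent.H5R2.NBA.HAC (ev fun x => 2 * (d : ℝ) + 1 * ω x) := by
      rintro u ⟨m, h1, h2, h3⟩
      refine Pool.Agent.H5R2.NBA.ALL.a_SPEC _ _ _ ⟨m, h1, h2, fun t => ?_⟩
      rw [← h3 t, hUe]
    refine ⟨fun hμ u => ?_, fun hμ u hu => ?_⟩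
    · refine not_ballistic (hev _) (hU ω) hv u fun i => ?_
      have h1 := hB i u
      rwa [hBns i (Pool.Agent.K7.H96.NBT.map_ns μ _ hμ)] at h1
    · refine not_ballistic (hev _) (hU ω) hv u fun i => ?_
      have h0 : B i u = 0 := by
        have hcl : IsClosed {f : L2 d | B i f = 0} :=
          isClosed_eq (B i).continuous continuous_const
        have hsub : (Submodule.span ℂ {u : L2 d | IsAC (U ω) u ∨ IsEigen (U ω) u} : Set (L2 d)) ⊆
            {f : L2 d | B i f = 0} := by
          intro f hf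
          have hf' : f ∈ Submodule.span ℂ {u : L2 d | IsAC (U ω) u ∨ IsEigen (U ω) u} := hf
          show B i f = 0
          induction hf' using Submodule.span_induction with
          | mem x hx =>
            rcases hx with hx | ⟨E, hE⟩
            · exact hBac i (hne hμ) x (hac x hx)
            · refine hBeig i x (Complex.exp (-(Complex.I * (1 : ℝ) * E))) ?_
              rw [← hUe]
              exact hE 1
          | zero => exact map_zero _
          | add x y _ _ hx hy => rw [map_add, hx (by assumption), hy (by assumption), add_zero]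
          | smul a x _ hx => rw [map_smul, hx (by assumption), smul_zero]
        exact (hcl.closure_subset_iff.2 hsub) hu
      have h1 := hB i u
      rwa [h0] at h1

end Pool.Agent.Results.MP_d0f69c_mp.NoBallisticTransport
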