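import Pool.Agent.K7.H83.SI.Main
import Pool.Agent.K7.H96.NBT.Fin
import Pool.Agent.K7.H96.CYC.Meas
import Pool.Agent.K7.H96.CYC.Const

/-!
# Simplicity of the singular continuous spectrum of the Anderson model at any disorder

`Δ_ω = -Δ + ω` on `ℓ²(ℤ^d)`, `ω_j` iid with a law `μ` which is not purely atomic, in every dimension
`d`. For instance `μ = (1 - ε) (δ_{-1} + δ_1) / 2 + ε λ`, where `λ` is the Cantor measure (or any other
law without atoms) and `ε > 0` is arbitrarily small. Then for almost every `ω`: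

* the restriction of `Δ_ω` to the singular continuous subspace has simple spectrum (a cyclic vector);
* an eigenvalue is simple as soon as one of its eigenvectors does not vanish at some site `x` such
  that `ω_x` is not an atom of `μ`;
* if `μ` has at most one atom and `d ≥ 1`, the restriction of `Δ_ω` to the whole singular subspace
  has simple spectrum.

For laws with a density this is due to Simon and to Jakšić and Last.

Proof. For a site `x` let `A_x` be the set of the energies `E` at which the Borel transform of the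
spectral measure of `δ_x` is unbounded at `E + i0`. It carries the singular part of this spectral
measure, and the sets `A_x` for two different values of `ω_x` are disjoint, by the rank one
perturbation formula. The group `e^{-itΔ_ω}` on the orthogonal complement of the cyclic subspace of
`δ_x` does not depend on `ω_x`. A fixed measure charges only countably many of the disjoint sets `A_x`,
so that almost surely, if `ω_x` is not an atom of `μ`, this part of the operator does not charge `A_x`.
By the theorem of the starting file `CyclicSites` the sites `x` such that `ω_x` is not an atom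
generate the continuous subspace. A cyclic vector is obtained from the vectors `1_{B_n}(Δ_ω) δ_{x_n}`,
where the sets `B_n` are obtained from the sets `A_{x_n}` by making them disjoint.
-/

set_option autoImplicit false

open MeasureTheory Filter Topology
open scoped BigOperators ENNReal NNReal InnerProductSpace

namespace Pool.Agent.Results.MP_d0f69c_mp.SimpleSingularSpectrum

/-- `ℓ²(ℤ^d)` -/
abbrev L2 (d : ℕ) : Type := lp (fun _ : Fin d → ℤ => ℂ) 2

/-- the operator of the problem, `(Δ_ω u)(j) = -∑_{|n|=1} (u(j+n) - u(j)) + ω_j u(j)` (the unit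
vectors `n` are `± e_i`) -/
noncomputable def H {d : ℕ} (ω : (Fin d → ℤ) → ℝ) (u : (Fin d → ℤ) → ℂ) (j : Fin d → ℤ) : ℂ :=
  -(∑ i : Fin d, ((u (j + Pi.single i 1) - u j) + (u (j - Pi.single i 1) - u j))) + (ω j : ℂ) * u j

/-- `U t = e^{-itΔ_ω}`: norm preserving maps of `ℓ²(ℤ^d)` with `U 0 = 1` and
`i ∂_t (U_t u) = Δ_ω U_t u` at every site -/
structure IsPropagator {d : ℕ} (ω : (Fin d → ℤ) → ℝ) (U : ℝ → L2 d → L2 d) : Prop where
  zero : ∀ u, U 0 u = u
  norm : ∀ t u, ‖U t u‖ = ‖u‖
  schrodinger : ∀ u t j, HasDerivAt (fun s => (U s u) j)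
    (-Complex.I * H ω (fun k => (U t u) k) j) t

/-- the spectral measure of `u` (the finite measure `m` with
`⟨u, e^{-itΔ_ω} u⟩ = ∫ e^{-itE} dm(E)`) is absolutely continuous -/
def IsAC {d : ℕ} (U : ℝ → L2 d → L2 d) (u : L2 d) : Prop :=
  ∃ m : Measure ℝ, IsFiniteMeasure m ∧ m ≪ volume ∧
    ∀ t : ℝ, ⟪u, U t u⟫_ℂ = ∫ E : ℝ, Complex.exp (-(Complex.I * t * E)) ∂m

/-- `Δ_ω u = E u`, that is, `e^{-itΔ_ω} u = e^{-itE} u` -/
def IsEigenAt {d : ℕ} (U : ℝ → L2 d → L2 d) (E : ℝ) (u : L2 d) : Prop :=
  ∀ t : ℝ, U t u = Complex.exp (-(Complex.I * t * E)) • u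

/-- the singular subspace: the vectors orthogonal to the absolutely continuous ones -/
def Sing {d : ℕ} (U : ℝ → L2 d → L2 d) : Set (L2 d) :=
  {u | ∀ ψ : L2 d, IsAC U ψ → ⟪ψ, u⟫_ℂ = 0}

/-- the singular continuous subspace: the vectors orthogonal to the absolutely continuous ones and to
the eigenvectors -/
def SingCont {d : ℕ} (U : ℝ → L2 d → L2 d) : Set (L2 d) :=
  {u | ∀ ψ : L2 d, (IsAC U ψ ∨ ∃ E : ℝ, IsEigenAt U E ψ) → ⟪ψ, u⟫_ℂ = 0}

/-- simple spectrum on the subspace `S`: there is a cyclic vector, that is, a vector `ψ` in `S` such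
that every `u` in `S` is in the closed span of the vectors `e^{-itΔ_ω} ψ` -/
def HasCyclicVector {d : ℕ} (U : ℝ → L2 d → L2 d) (S : Set (L2 d)) : Prop :=
  ∃ ψ ∈ S, ∀ u ∈ S, u ∈ closure (Submodule.span ℂ (Set.range fun t : ℝ => U t ψ) : Set (L2 d))

/-- the law of iid variables with law `μ` on `ℤ^d` -/
noncomputable def iid (d : ℕ) (μ : Measure ℝ) : Measure ((Fin d → ℤ) → ℝ) :=
  Measure.infinitePi fun _ => μ

open Pool.Agent.H5R2.NB Pool.Agent.K7.H83.SI

theorem sol_of_prop {d : ℕ} {ω : (Fin d → ℤ) → ℝ} {U : ℝ → L2 d → L2 d}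
    (hU : IsPropagator ω U) (u : L2 d) :
    IsSol (-1) (fun x => 2 * d + 1 * ω x) (fun t => U t u) (fun _ => 0) := by
  refine ⟨fun T => ⟨‖u‖, fun t _ => (hU.norm t u).le⟩, fun t x => ?_⟩
  have h := hU.schrodinger u t x
  have e := FIN.hop_eq ω (fun k => (U t u) k) x
  have e2 : -Complex.I * (hopf (-1) (fun y => (U t u) y) x +
      (((fun x => 2 * d + 1 * ω x) x : ℝ) : ℂ) * (U t u) x) + ((0 : L2 d) : (Fin d → ℤ) → ℂ) x =
      -Complex.I * H ω (fun k => (U t u) k) x := by
    have e3 : H ω (fun k => (U t u) k) x = -(∑ i : Fin d,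
        (((U t u) (x + Pi.single i 1) - (U t u) x) + ((U t u) (x - Pi.single i 1) - (U t u) x))) +
        (ω x : ℂ) * (U t u) x := rfl
    rw [e3, ← e]
    simp
  rw [e2]
  exact h

theorem prop_of_grp {d : ℕ} {ω : (Fin d → ℤ) → ℝ} {W : UG (Pool.Agent.H5R2.NB.L2 (Site d))}
    (hW : IsGrp (-1) (fun x => 2 * d + 1 * ω x) W) : IsPropagator ω (fun t u => W.U t u) := by
  refine ⟨W.zero', W.norm', fun u t x => ?_⟩
  have h := (hW u).2 t x
  have e := FIN.hop_eq ω (fun k => (W.U t u) k) x
  have e3 : H ω (fun k => (W.U t u) k) x = -(∑ i : Fin d,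
        (((W.U t u) (x + Pi.single i 1) - (W.U t u) x) +
          ((W.U t u) (x - Pi.single i 1) - (W.U t u) x))) + (ω x : ℂ) * (W.U t u) x := rfl
  rw [e3, ← e]
  simpa using h

theorem prop_eq {d : ℕ} {ω : (Fin d → ℤ) → ℝ} {W : UG (Pool.Agent.H5R2.NB.L2 (Site d))}
    (hW : IsGrp (-1) (fun x => 2 * d + 1 * ω x) W) {U : ℝ → L2 d → L2 d}
    (hU : IsPropagator ω U) (t : ℝ) (u : L2 d) : U t u = W.U t u := by
  have h := Pool.Agent.H5R2.NB.ALL.a_UN d (-1) _ W hW (fun t => U t u) (fun _ => 0)
    continuous_const (sol_of_prop hU u) t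
  simpa [hU.zero u] using h

theorem isAC_iff {d : ℕ} {W : UG (Pool.Agent.H5R2.NB.L2 (Site d))} {U : ℝ → L2 d → L2 d}
    (hUe : ∀ t u, U t u = W.U t u) (u : L2 d) : IsAC U u ↔ sm W u ≪ volume := by
  constructor
  · rintro ⟨m, hm, hac, h⟩
    have : sm W u = m := sm_eq ⟨hm, fun t => by rw [← hUe]; exact h t⟩
    rw [this]
    exact hac
  · intro h
    exact ⟨sm W u, inferInstance, h, fun t => by rw [hUe]; exact sm_inner W u t⟩

theorem eig_iff {d : ℕ} {W : UG (Pool.Agent.H5R2.NB.L2 (Site d))} {U : ℝ → L2 d → L2 d}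
    (hUe : ∀ t u, U t u = W.U t u) (E : ℝ) (u : L2 d) :
    IsEigenAt U E u ↔ ∀ t : ℝ, W.U t u = Complex.exp (-(Complex.I * t * E)) • u := by
  unfold IsEigenAt
  simp only [hUe]

theorem cyc_iff {d : ℕ} {W : UG (Pool.Agent.H5R2.NB.L2 (Site d))} {U : ℝ → L2 d → L2 d}
    (hUe : ∀ t u, U t u = W.U t u) {S : Set (L2 d)} {M : Submodule ℂ (L2 d)}
    (hS : ∀ u, u ∈ S ↔ u ∈ M) (h : ∃ ψ ∈ M, M ≤ cyc W ψ) : HasCyclicVector U S := by
  obtain ⟨ψ, hψ, hle⟩ := h
  refine ⟨ψ, (hS ψ).2 hψ, fun u hu => ?_⟩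
  simp only [hUe]
  exact hle ((hS u).1 hu)

/-- For every dimension `d` and every law `μ` which is not purely atomic (the set of the points which
are not atoms of `μ` has positive measure): the unitary group `e^{-itΔ_ω}` exists and is unique for
every `ω`, and for almost every `ω` (iid with law `μ`): (a) the restriction of `Δ_ω` to the singular
continuous subspace has a cyclic vector; (b) if `φ` and `ψ` are eigenvectors for the same eigenvalue
and `φ(x) ≠ 0` at a site `x` such that `ω_x` is not an atom of `μ`, then `ψ` is a multiple of `φ`;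
(c) if `μ` has at most one atom and `d ≥ 1`, the restriction of `Δ_ω` to the singular subspace has a
cyclic vector. -/
theorem result (d : ℕ) (μ : Measure ℝ) [IsProbabilityMeasure μ] (hμ : μ {r : ℝ | μ {r} = 0} ≠ 0) :
    (∀ ω : (Fin d → ℤ) → ℝ, ∃! U : ℝ → L2 d → L2 d, IsPropagator ω U) ∧
    ∀ U : ((Fin d → ℤ) → ℝ) → ℝ → L2 d → L2 d, (∀ ω, IsPropagator ω (U ω)) →
      ∀ᵐ ω ∂(iid d μ),
        HasCyclicVector (U ω) (SingCont (U ω)) ∧
        (∀ (E : ℝ) (φ ψ : L2 d) (x : Fin d → ℤ), IsEigenAt (U ω) E φ → IsEigenAt (U ω) E ψ →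
          μ {ω x} = 0 → φ x ≠ 0 → ψ = (ψ x / φ x) • φ) ∧
        (1 ≤ d → (∃ κ : ℝ, ∀ r : ℝ, r ≠ κ → μ {r} = 0) →
          HasCyclicVector (U ω) (Sing (U ω))) := by
  refine ⟨fun ω => ?_, fun U hU => ?_⟩
  · obtain ⟨W, hW⟩ := Pool.Agent.H5R2.NB.ALL.a_EX d (-1) (fun x => 2 * d + 1 * ω x)
    refine ⟨fun t u => W.U t u, prop_of_grp hW, fun U hU => ?_⟩
    funext t u
    exact prop_eq hW hU t u
  · choose ev hev using fun V : Site d → ℝ => Pool.Agent.H5R2.NB.ALL.a_EX d (-1) V
    set g : ℝ → ℝ := fun r => 2 * (d : ℝ) + 1 * r with hgdef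
    have hg : Measurable g := by fun_prop
    have hginj : Function.Injective g := by
      intro a b hab
      simp only [hgdef] at hab
      linarith
    have hge : MeasurableEmbedding g := (Measurable.measurableEmbedding hg hginj)
    have hpm : IsProbabilityMeasure (μ.map g) := Measure.isProbabilityMeasure_map hg.aemeasurable
    have hmap : (iid d μ).map (fun (ω : Site d → ℝ) (x : Site d) => 2 * (d : ℝ) + 1 * ω x) =
        PP d (μ.map g) := by
      unfold PP iid
      exact Measure.infinitePi_map_pi (μ := fun _ : Site d => μ) (fun _ => hg)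
    have hgm : Measurable (fun (ω : Site d → ℝ) (x : Site d) => 2 * (d : ℝ) + 1 * ω x) :=
      measurable_pi_iff.2 fun x => hg.comp (measurable_pi_apply x)
    have hUe : ∀ ω t u, U ω t u = (ev fun x => 2 * (d : ℝ) + 1 * ω x).U t u := by
      intro ω t u
      exact prop_eq (hev _) (hU ω) t u
    -- the atoms of the image law
    have hatom : ∀ r, (μ.map g) {g r} = μ {r} := by
      intro r
      rw [hge.map_apply]
      congr 1
      ext s
      simp only [Set.mem_preimage, Set.mem_singleton_iff]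
      exact hginj.eq_iff
    set J : Set ℝ := {r : ℝ | (μ.map g) {r} = 0} with hJdef
    have hJm : MeasurableSet J := nonatoms_meas _
    have hJp : (μ.map g) J ≠ 0 := by
      rw [hge.map_apply]
      have : g ⁻¹' J = {r : ℝ | μ {r} = 0} := by
        ext r
        simp only [hJdef, Set.mem_preimage, Set.mem_ofPred_eq, hatom]
      rwa [this]
    have hA := orth_null hev (μ.map g) (d := d)
    have hB := Pool.Agent.K7.H96.CYC.res_case hev (μ.map g) J hJm hJp
    have hC : ∀ᵐ V ∂(PP d (μ.map g)), (1 ≤ d → (∃ κ : ℝ, ∀ r : ℝ, r ≠ κ → μ {r} = 0) →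
        ∀ u : L2 d, u ∈ closure (Submodule.span ℂ
          {y : L2 d | ∃ x ∈ {x : Site d | V x ∈ J}, ∃ t : ℝ, y = (ev V).U t (dl x)} :
            Set (L2 d))) := by
      by_cases hd : 1 ≤ d
      · by_cases hκ : ∃ κ : ℝ, ∀ r : ℝ, r ≠ κ → μ {r} = 0
        · obtain ⟨κ, hκ⟩ := hκ
          have hae : ∀ᵐ r ∂(μ.map g), r ∈ J ∨ r = g κ := by
            refine Eventually.of_forall fun r => ?_
            by_cases hr : r = g κ
            · exact Or.inr hr
            · left
              have hr2 : r = g (r - 2 * (d : ℝ)) := by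
                simp only [hgdef]
                ring
              rw [hJdef, Set.mem_ofPred_eq, hr2, hatom]
              refine hκ _ fun h => hr ?_
              rw [hr2, h]
          filter_upwards [Pool.Agent.K7.H96.CYC.const_case (by norm_num : (-1 : ℝ) ≠ 0) hev hd
            (μ.map g) (g κ) J hJm hJp hae] with V hV _ _ u
          exact hV u
        · exact ae_of_all _ fun ω _ h => absurd h hκ
      · exact ae_of_all _ fun ω h => absurd h hd
    rw [← hmap] at hA hB hC
    filter_upwards [ae_of_ae_map hgm.aemeasurable hA, ae_of_ae_map hgm.aemeasurable hB,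
      ae_of_ae_map hgm.aemeasurable hC] with ω h1 h2 h3
    set V : Site d → ℝ := fun x => 2 * (d : ℝ) + 1 * ω x with hV
    have hUω : ∀ t u, U ω t u = (ev V).U t u := hUe ω
    have hPac : ∀ t (ψ : L2 d), sm (ev V) ψ ≪ volume → sm (ev V) ((ev V).U t ψ) ≪ volume := by
      intro t ψ h
      rw [sm_U]
      exact h
    refine ⟨?_, ?_, ?_⟩
    · refine cyc_iff hUω (M := orthP fun ψ => sm (ev V) ψ ≪ volume ∨
        Pool.Agent.K7.H96.CYC.TrueEig (ev V) ψ) (fun u => ?_) ?_
      · rw [mem_orthP]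
        refine forall_congr' fun ψ => imp_congr (or_congr (isAC_iff hUω ψ) ?_) Iff.rfl
        exact exists_congr fun E => eig_iff hUω E ψ
      · refine cyclic_fix (V := V) (J := J) (fun x hx φ hφ => h1 x hx φ hφ) (orthP_closed _)
          (fun t u hu => orthP_inv ?_ t u hu) (fun u hu => sing_of_orth fun w hw => hu w (Or.inl hw))
          (fun u hu => h2 u fun ψ hψ => hu ψ (Or.inr hψ))
        rintro t ψ (h | ⟨E, h⟩)
        · exact Or.inl (hPac t ψ h)
        · exact Or.inr ⟨E, fun s => eig_U h t s⟩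
    · intro E φ ψ x hφ hψ hx hne
      have hx2 : (μ.map g) {V x} = 0 := by
        have : V x = g (ω x) := rfl
        rw [this, hatom]
        exact hx
      have h4 := eigen_simple (W := ev V) (e := dl x) (A := bl (ev V) x) (h1 x hx2) (bl_ac _ _)
        (bl_meas _ _) ((eig_iff hUω E φ).1 hφ) ((eig_iff hUω E ψ).1 hψ)
        (by rw [ANTI.dl_inner]; exact hne)
      rwa [ANTI.dl_inner, ANTI.dl_inner] at h4
    · intro hd hκ
      refine cyc_iff hUω (M := orthP fun ψ => sm (ev V) ψ ≪ volume) (fun u => ?_) ?_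
      · rw [mem_orthP]
        exact forall_congr' fun ψ => imp_congr (isAC_iff hUω ψ) Iff.rfl
      · exact cyclic_fix (V := V) (J := J) (fun x hx φ hφ => h1 x hx φ hφ) (orthP_closed _)
          (fun t u hu => orthP_inv hPac t u hu) (fun u hu => sing_of_orth fun w hw => hu w hw)
          (fun u _ => h3 hd hκ u)

end Pool.Agent.Results.MP_d0f69c_mp.SimpleSingularSpectrum
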